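import Pool.Agent.W659.SA.Ext

/-!
# Lang's strong conjecture, density version over all number fields, for individual varieties

`k` is a number field, `A = E_1 × … × E_r` a product of elliptic curves `y² = x³ + a_i x` or
`y² = x³ + b_i` with `a_i, b_i ∈ ℤ` (the rank of `A` over finite extensions of `k` is unbounded), and
`X` is the variety over `k` given by

  `G_1(P; t) = … = G_q(P; t) = 0, w_1² = F_1(P; t), …, w_m² = F_m(P; t)`, `P ∈ A`,

where the `G_e` and `F_i` are polynomials with coefficients in `𝓞 k`, multihomogeneous in the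
coordinates of the plane cubics `E_i`, of even degrees in the case of the `F_i`, and
`t = (t_0, …, t_n)`. If they are homogeneous in `t`, the `F_i` of even degrees, `X` is projective, a
`(ℤ/2)^m`-cover of a closed subvariety of `A × ℙⁿ`, for general equations of large degrees smooth with
ample canonical bundle.

Hypothesis: there is no complex point `P` of `A` such that all the `G_e(P; ·)` vanish identically and
all the `F_i(P; ·)` are squares of polynomials.

Theorem: for every finite extension `K` of `k` with an integral basis `ω_1, …, ω_N`, the number of the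
`t ∈ (𝓞 K)^(n+1)` with coordinates of size at most `H` over which `X` has a `K`-rational point is at
most `(2H+1)^((n+1)N) exp(- c log H / log log H)`. So for every `K` all the `K`-rational points of
the fixed variety `X` lie over a subset of density zero of the base, with a saving larger than
any power of `log H`.
-/

set_option autoImplicit false

namespace Pool.Agent.Results.MP_7ede32_ag.CoversOfSubvarieties

open MvPolynomial NumberField Pool.Agent.W659.SA

theorem result (k : Type) [Field k] [NumberField k] (r n q m : ℕ) (a b : Fin r → ℤ)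
    (hab : ∀ i, a i * b i = 0 ∧ (a i ≠ 0 ∨ b i ≠ 0))
    (G : Fin q → Pol0 (𝓞 k) r (n + 1)) (d' : Fin q → Fin r → ℕ) (hG : ∀ e, MHomog (G e) (d' e))
    (F : Fin m → Pol0 (𝓞 k) r (n + 1)) (d : Fin m → Fin r → ℕ) (hF : ∀ i, MHomog (F i) (d i))
    (hd : ∀ i j, Even (d i j)) (σ : k →+* ℂ)
    (hns : ∀ V : Fin r → Fin 3 → ℂ, (∀ i, Pool.Agent.W659.FD.OnE (a i) (b i) (V i)) →
      (∃ e, spc0 (toC σ) (G e) V ≠ 0) ∨
        ∃ i, ∀ g : MvPolynomial (Fin (n + 1)) ℂ, spc0 (toC σ) (F i) V ≠ g ^ 2)
    (K : Type) [Field K] [NumberField K] [Algebra k K] (N : ℕ)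
    (ω : Module.Basis (Fin N) ℤ (𝓞 K)) :
    ∃ c : ℝ, 0 < c ∧ ∃ H₀ : ℕ, ∀ H : ℕ, H₀ ≤ H →
      (((FibL k ω a b G F H).ncard : ℕ) : ℝ) ≤
        (2 * (H : ℝ) + 1) ^ ((n + 1) * N) *
          Real.exp (-c * (Real.log H / Real.log (Real.log H))) :=
  dcExt k r n q m a b hab G d' hG F d hd hF σ hns K N ω

end Pool.Agent.Results.MP_7ede32_ag.CoversOfSubvarieties
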